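import Mathlib
import Pool.Agent.toep.Defs
import Pool.Agent.toep.Final

/-! Every maximizer of the Toeplitz mini-max ratio has order exactly `N` (question Q1).

Idea of the proof. Let `ψ` be a maximizer of order `n < N`, `lam = ‖A_ψ‖`, and let `q` be the real
trigonometric polynomial of degree `n` with the sign of `ψ`. The matrix `lam + A_ψ` is a positive
combination of rank-one Toeplitz matrices at points `w` of the circle (Caratheodory-Toeplitz), and
some such `w` has `q w > 0`. Removing the point mass at `w` does not increase the norm, so the new
matrix has a symbol bounded by `c_N * lam = ‖ψ‖`; testing it against `q * (|z - w|² - δ²)`, of degree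
`n + 1 ≤ N`, gives a contradiction as `δ → 0`. -/

namespace Pool.Agent.Results.MP_bc6ece_an.MaximizerOrder

open Pool.Agent.Toep

/-- For every `N ≥ 1`, every maximizer has order exactly `N`. -/
theorem result : ∀ N : ℕ, 1 ≤ N → ∀ (n : ℕ) (ψ : Circ → ℝ), IsMaximizer N n ψ → n = N :=
  fun N hN n ψ h => order_eq N hN n ψ h

end Pool.Agent.Results.MP_bc6ece_an.MaximizerOrder
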